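import Pool.Agent.W662.CB.Stmts

/-! Project CB (helper662): the core lies in the commutant. -/

set_option autoImplicit false

open MeasureTheory Filter Topology Complex
open scoped InnerProductSpace ENNReal
open Pool.Agent.W662.CB

namespace Pool.Agent.W850.CB

noncomputable section

variable {H : Type} [NormedAddCommGroup H] [InnerProductSpace ℂ H] [CompleteSpace H]

/-- pointwise form of an operator -/
def HP (T : LR H →L[ℂ] LR H) (a : ℝ) (φ : ℝ → H →L[ℂ] H) : Prop :=
  ∀ f : LR H, (T f : ℝ → H) =ᵐ[volume] fun s => φ s (f (s - a))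

theorem shiftae {f g : ℝ → H} (h : f =ᵐ[volume] g) (a : ℝ) :
    (fun s => f (s - a)) =ᵐ[volume] fun s => g (s - a) :=
  (measurePreserving_sub_right volume a).quasiMeasurePreserving.ae_eq h

theorem HP.mul {T1 T2 : LR H →L[ℂ] LR H} {a1 a2 : ℝ} {φ1 φ2 : ℝ → H →L[ℂ] H}
    (h1 : HP T1 a1 φ1) (h2 : HP T2 a2 φ2) :
    HP (T1 * T2) (a1 + a2) (fun s => φ1 s * φ2 (s - a1)) := by
  intro f
  filter_upwards [h1 (T2 f), shiftae (h2 f) a1] with s h h'
  rw [ContinuousLinearMap.mul_apply, h, h', ContinuousLinearMap.mul_apply, sub_sub]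

theorem HP.ext {T1 T2 : LR H →L[ℂ] LR H} {a1 a2 : ℝ} {φ1 φ2 : ℝ → H →L[ℂ] H}
    (h1 : HP T1 a1 φ1) (h2 : HP T2 a2 φ2) (ha : a1 = a2) (hφ : ∀ s, φ1 s = φ2 s) : T1 = T2 := by
  subst ha
  have e : φ1 = φ2 := funext hφ
  subst e
  refine ContinuousLinearMap.ext fun f => Lp.ext ((h1 f).trans (h2 f).symm)

theorem hp_const {y : H →L[ℂ] H} {S : LR H →L[ℂ] LR H} (h : IsConst y S) : HP S 0 (fun _ => y) := by
  intro f
  simpa using h f

theorem hp_shift {t : ℝ} {S : LR H →L[ℂ] LR H} (h : IsShift t S) : HP S t (fun _ => 1) := by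
  intro f
  simpa using h f

theorem star_comm {K : Type} [NormedAddCommGroup K] [InnerProductSpace ℂ K] [CompleteSpace K]
    {S V V' : K →L[ℂ] K} (hV : star V = V') (h : S * V' = V' * S) :
    star S * V = V * star S := by
  have h1 := congrArg star h
  rw [star_mul, star_mul, ← hV, star_star] at h1
  exact h1.symm

theorem e11 : S_E11 := by
  intro H _ _ _ M N ξ U hU hNM hsN κ hκ R hR hR0 hRadd hRstar Z hZ
  have hx : ∀ (s t : ℝ) (x : H →L[ℂ] H), sgm U (-s) x * U t = U t * sgm U (-(s - -t)) x := by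
    intro s t x
    unfold sgm
    rw [hU.star_eq, hU.star_eq]
    have h1 : U (- -s) * U t = U (- -(s - -t)) := by
      rw [← hU.add]
      congr 1
      ring
    have h2 : U t * U (-(s - -t)) = U (-s) := by
      rw [← hU.add]
      congr 1
      ring
    rw [mul_assoc, h1, ← mul_assoc, ← mul_assoc, h2]
  -- generators commute
  have hV : ∀ (t : ℝ) (S : LR H →L[ℂ] LR H), S ∈ coreGen N U →
      S * (R (-t) * κ (U t)) = (R (-t) * κ (U t)) * S := by
    intro t S hS
    have hv := (hp_shift (hR (-t))).mul (hp_const (hκ (U t)))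
    rcases hS with ⟨x, hxN, hSx⟩ | ⟨a, hSa⟩
    · have hs : HP S 0 (fun s => sgm U (-s) x) := by
        intro f
        simpa using hSx f
      refine (hs.mul hv).ext (hv.mul hs) (by ring) fun s => ?_
      simp only [one_mul, add_zero]
      exact hx s t x
    · have hs : HP S a (fun _ => 1) := hp_shift hSa
      refine (hs.mul hv).ext (hv.mul hs) (by ring) fun s => ?_
      simp
  have hK : ∀ (y : H →L[ℂ] H), y ∈ N.commutant → ∀ (S : LR H →L[ℂ] LR H), S ∈ coreGen N U →
      S * κ y = κ y * S := by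
    intro y hy S hS
    have hv := hp_const (hκ y)
    rcases hS with ⟨x, hxN, hSx⟩ | ⟨a, hSa⟩
    · have hs : HP S 0 (fun s => sgm U (-s) x) := by
        intro f
        simpa using hSx f
      refine (hs.mul hv).ext (hv.mul hs) (by ring) fun s => ?_
      simp only [sub_zero]
      exact (VonNeumannAlgebra.mem_commutant_iff.1 hy) _ (hsN _ _ hxN)
    · have hs : HP S a (fun _ => 1) := hp_shift hSa
      refine (hs.mul hv).ext (hv.mul hs) (by ring) fun s => ?_
      simp
  have hstarV : ∀ t : ℝ, star (R (-t) * κ (U t)) = R (- -t) * κ (U (-t)) := by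
    intro t
    rw [star_mul, hRstar, ← map_star, hU.star_eq]
    refine ((hp_const (hκ (U (-t)))).mul (hp_shift (hR (- -t)))).ext
      ((hp_shift (hR (- -t))).mul (hp_const (hκ (U (-t))))) (by ring) fun s => ?_
    simp
  have hmem : ∀ g : LR H →L[ℂ] LR H,
      g ∈ StarSubalgebra.centralizer ℂ (coreGen N U) → Z * g = g * Z := by
    intro g hg
    have h1 : Z ∈ StarSubalgebra.centralizer ℂ
        ((StarSubalgebra.centralizer ℂ (coreGen N U) : Set (LR H →L[ℂ] LR H))) := hZ
    rw [StarSubalgebra.mem_centralizer_iff] at h1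
    exact (h1 g hg).1.symm
  refine ⟨fun t => hmem _ ?_, fun y hy => hmem _ ?_⟩
  · rw [StarSubalgebra.mem_centralizer_iff]
    intro S hS
    exact ⟨hV t S hS, star_comm (hstarV t) (hV (-t) S hS)⟩
  · rw [StarSubalgebra.mem_centralizer_iff]
    intro S hS
    refine ⟨hK y hy S hS, star_comm (map_star κ y).symm (hK (star y) ?_ S hS)⟩
    exact star_mem hy

end

end Pool.Agent.W850.CB
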